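import Pool.Agent.EqG.Red

/-!
# Systems of equations over groups: reduction to finitely generated subgroups without
homomorphisms

For a group `A` consider the three hypotheses on the exponent-sum determinant `d` of a square
system of equations over `A`: `d ≠ 0`; `d` not divisible by `p`; `d = 1` or `d = -1`.

All systems over `A` satisfying the hypothesis are solvable in overgroups of `A` if and only if
every nonabelian finitely generated subgroup `P` of `A` without nontrivial homomorphisms to `ℤ`
(first and third hypothesis), to `ℤ/p` (second hypothesis), is residually a group for which this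
is true.
-/

namespace Pool.Agent.Results.MP_cb60a4_al.Reduction

universe u

open EqG

theorem result (A : Type u) [Group A] :
    (Solv (fun d => d ≠ 0) A ↔ ∀ P : Subgroup A, P.FG → (∀ φ : P →* Multiplicative ℤ, φ = 1) →
      (∃ x y : P, x * y ≠ y * x) → ResSolv (fun d => d ≠ 0) P) ∧
    (∀ p : ℕ, p.Prime → (Solv (fun d => ¬ (p : ℤ) ∣ d) A ↔ ∀ P : Subgroup A, P.FG →
      (∀ φ : P →* Multiplicative (ZMod p), φ = 1) →
      (∃ x y : P, x * y ≠ y * x) → ResSolv (fun d => ¬ (p : ℤ) ∣ d) P)) ∧
    (Solv (fun d => d = 1 ∨ d = -1) A ↔ ∀ P : Subgroup A, P.FG →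
      (∀ φ : P →* Multiplicative ℤ, φ = 1) →
      (∃ x y : P, x * y ≠ y * x) → ResSolv (fun d => d = 1 ∨ d = -1) P) :=
  reduction A

end Pool.Agent.Results.MP_cb60a4_al.Reduction
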